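import Mathlib
import Pool.Agent.H.MP_aebd38_co.Half

set_option autoImplicit false

namespace Pool.Agent.Results.MP_aebd38_co.FullRange

open Finset Equiv Filter Asymptotics
open Pool.Agent.H.MP_aebd38_co

open Classical in
/-- The probability that a uniformly random permutation of `{0,…,n-1}` with exactly `m`
inversions contains `π` as a consecutive pattern. -/
noncomputable def prob {k : ℕ} (π : Perm (Fin k)) (n m : ℕ) : ℝ :=
  (((Finset.univ : Finset (Perm (Fin n))).filter
      (fun σ => inv σ = m ∧ ContainsConsecutive π σ)).card : ℝ) /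
    (((Finset.univ : Finset (Perm (Fin n))).filter (fun σ => inv σ = m)).card : ℝ)

lemma A_nat (n m : ℕ) :
    (((Finset.univ : Finset (Perm (Fin n))).filter (fun σ => inv σ = m)).card : ℝ) = A n m := by
  unfold A
  congr 2
  ext σ
  simp only [Finset.mem_filter, Finset.mem_univ, true_and]
  exact ⟨fun h => by exact_mod_cast h, fun h => by exact_mod_cast h⟩

lemma contains_rev {k n : ℕ} (π : Perm (Fin k)) (σ : Perm (Fin n)) :
    ContainsConsecutive (Fin.revPerm * π) (Fin.revPerm * σ) ↔ ContainsConsecutive π σ := by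
  have key : ∀ (i : ℕ) (h : i + k ≤ n),
      HasPat h (Fin.revPerm * σ) (Fin.revPerm * π) ↔ HasPat h σ π := by
    intro i h
    unfold HasPat
    simp only [Perm.mul_apply, Fin.revPerm_apply, Fin.rev_lt_rev]
    exact ⟨fun h1 x y => h1 y x, fun h1 x y => h1 y x⟩
  unfold ContainsConsecutive
  exact exists_congr (fun i => exists_congr (fun h => key i h))

lemma bad_rev {k n : ℕ} (π : Perm (Fin k)) (m : ℕ) (hm : m ≤ n.choose 2) :
    bad n π m = bad n (Fin.revPerm * π) (n.choose 2 - m) := by
  classical
  unfold bad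
  congr 1
  refine Finset.card_bij (fun σ _ => Fin.revPerm * σ) ?_ ?_ ?_
  · intro σ hσ
    simp only [Finset.mem_filter, Finset.mem_univ, true_and] at hσ ⊢
    rw [contains_rev]
    have := inv_rev σ
    exact ⟨by omega, hσ.2⟩
  · intro σ _ τ _ h
    exact mul_left_cancel h
  · intro τ hτ
    simp only [Finset.mem_filter, Finset.mem_univ, true_and] at hτ
    refine ⟨Fin.revPerm * τ, ?_, ?_⟩
    · simp only [Finset.mem_filter, Finset.mem_univ, true_and]
      have h1 := inv_rev τ
      refine ⟨by omega, ?_⟩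
      rw [← contains_rev]
      have : Fin.revPerm * (Fin.revPerm * τ) = τ := by ext x; simp [Perm.mul_apply]
      rw [this]
      exact hτ.2
    · ext x; simp [Perm.mul_apply]

/-- For every pattern `π` of length `k ≥ 1` with `s` inversions (and `s' = k(k-1)/2 - s`) and
every sequence `0 ≤ m(n) ≤ n(n-1)/2` with `n^{1-1/s} ≪ m(n)` (if `s ≠ 0`) and
`n^{1-1/s'} ≪ n(n-1)/2 - m(n)` (if `s' ≠ 0`), a uniformly random permutation of `n` with `m(n)`
inversions contains `π` consecutively with probability tending to `1`. -/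
theorem result : ∀ (k : ℕ), 1 ≤ k → ∀ (π : Perm (Fin k)) (m : ℕ → ℕ),
    (∀ n, m n ≤ n.choose 2) →
    (inv π ≠ 0 →
      (fun n : ℕ => (n : ℝ) ^ (1 - 1 / (inv π : ℝ))) =o[atTop] (fun n : ℕ => (m n : ℝ))) →
    (k.choose 2 - inv π ≠ 0 →
      (fun n : ℕ => (n : ℝ) ^ (1 - 1 / ((k.choose 2 - inv π : ℕ) : ℝ))) =o[atTop]
        (fun n : ℕ => ((n.choose 2 - m n : ℕ) : ℝ))) →
    Tendsto (fun n : ℕ => prob π n (m n)) atTop (nhds 1) := by
  intro k hk π m hm hlow hhigh
  have hrev : inv (Fin.revPerm * π) = k.choose 2 - inv π := by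
    have := inv_rev π; omega
  -- eventual lower bound for the probability
  have key : ∀ ε : ℝ, 0 < ε → ε ≤ 1 → ∀ᶠ n in atTop, 1 - ε ≤ prob π n (m n) := by
    intro ε hε hε1
    obtain ⟨C1, N1, hC1, h1⟩ := half k hk π ε hε hε1
    obtain ⟨C2, N2, hC2, h2⟩ := half k hk (Fin.revPerm * π) ε hε hε1
    have e1 : ∀ᶠ n : ℕ in atTop, inv π ≠ 0 →
        C1 * (n : ℝ) ^ (1 - 1 / (inv π : ℝ)) ≤ m n := by
      by_cases hs : inv π = 0
      · exact Eventually.of_forall (fun n h => absurd hs h)
      · have := (hlow hs).def (show (0 : ℝ) < 1 / C1 by positivity)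
        filter_upwards [this] with n hn _
        rw [Real.norm_of_nonneg (by positivity), Real.norm_of_nonneg (by positivity),
          one_div_mul_eq_div, le_div_iff₀ hC1] at hn
        linarith
    have e2 : ∀ᶠ n : ℕ in atTop, k.choose 2 - inv π ≠ 0 →
        C2 * (n : ℝ) ^ (1 - 1 / ((k.choose 2 - inv π : ℕ) : ℝ)) ≤
          ((n.choose 2 - m n : ℕ) : ℝ) := by
      by_cases hs : k.choose 2 - inv π = 0
      · exact Eventually.of_forall (fun n h => absurd hs h)
      · have := (hhigh hs).def (show (0 : ℝ) < 1 / C2 by positivity)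
        filter_upwards [this] with n hn _
        rw [Real.norm_of_nonneg (by positivity), Real.norm_of_nonneg (by positivity),
          one_div_mul_eq_div, le_div_iff₀ hC2] at hn
        linarith
    filter_upwards [e1, e2, eventually_ge_atTop N1, eventually_ge_atTop N2] with n hn1 hn2 hN1 hN2
    have hA : 0 < A n (m n) := A_pos n (m n) (by omega) (by exact_mod_cast hm n)
    have hbad : bad n π (m n) ≤ ε * A n (m n) := by
      by_cases hhalf : 2 * m n ≤ n.choose 2
      · exact h1 n hN1 (m n) hhalf hn1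
      · have hmn := hm n
        rw [bad_rev π (m n) hmn]
        have h3 := h2 n hN2 (n.choose 2 - m n) (by omega) (by rw [hrev]; exact hn2)
        have h4 : A n ((n.choose 2 - m n : ℕ) : ℤ) = A n (m n) := by
          rw [Nat.cast_sub hmn]; exact A_symm n (m n)
        rwa [h4] at h3
    have hgb := good_add_bad n π (m n)
    have hprob : prob π n (m n) = good n π (m n) / A n (m n) := by
      unfold prob
      rw [A_nat]
      rfl
    rw [hprob, le_div_iff₀ hA]
    linarith
  have hle : ∀ n, prob π n (m n) ≤ 1 := by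
    intro n
    have hA : 0 < A n (m n) := A_pos n (m n) (by omega) (by exact_mod_cast hm n)
    have hgb := good_add_bad n π (m n)
    have hb0 : 0 ≤ bad n π (m n) := by unfold bad; positivity
    have hprob : prob π n (m n) = good n π (m n) / A n (m n) := by
      unfold prob
      rw [A_nat]
      rfl
    rw [hprob, div_le_one hA]
    linarith
  rw [Metric.tendsto_atTop]
  intro ε hε
  have h := key (min (ε / 2) 1) (by positivity) (min_le_right _ _)
  obtain ⟨N, hN⟩ := eventually_atTop.mp h
  refine ⟨N, fun n hn => ?_⟩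
  have h1 := hN n hn
  have h2 := hle n
  have h3 : min (ε / 2) 1 ≤ ε / 2 := min_le_left _ _
  rw [Real.dist_eq, abs_sub_lt_iff]
  constructor <;> linarith

end Pool.Agent.Results.MP_aebd38_co.FullRange
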